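import Pool.Agent.Helper45.LGB.St

/-!
# Project LGB, module COL: collapse of the filtration
-/

set_option autoImplicit false

namespace Pool.Agent.Helper61.LGB

open Pool.Agent.Helper45.LGB
open scoped BigOperators

theorem hCOL (hFIL : StFIL) : StCOL := by
  intro p m _ ι E V _ _ f Y W W' v hm hC hv
  obtain ⟨_, _, hW, sW, sW', hN⟩ := hC
  obtain ⟨_, f2, _, _, f5, f6⟩ := hFIL p ι V f Y W W' v hW sW sW' hv
  have key : ∀ (n : ℕ) (l : List (Module.End (ZMod p) V)), l.length = n → (∀ ν ∈ l, Lam f Y ν) →
      l.prod v ∈ Mf f Y v W' m := by
    intro n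
    induction n using Nat.strong_induction_on with
    | _ n ih =>
      intro l hl hL
      by_cases h : n ≤ m
      · exact Submodule.mem_sup_left (Submodule.subset_span ⟨l, by omega, hL, rfl⟩)
      · rw [not_le] at h
        have hMk : ∀ k, k < n → Mf f Y v W' k ≤ Mf f Y v W' m := by
          intro k hk
          have hs : ∀ z ∈ {z | ∃ l : List (Module.End (ZMod p) V), l.length ≤ k ∧
              (∀ ν ∈ l, Lam f Y ν) ∧ z = l.prod v}, z ∈ Mf f Y v W' m := by
            rintro z ⟨l', hl', hL', rfl⟩
            exact ih l'.length (by omega) l' rfl hL'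
          exact sup_le (Submodule.span_le.2 hs) le_sup_right
        have hb : (l.drop (n - (m + 1))).length = m + 1 := by
          rw [List.length_drop, hl]
          omega
        have ha : (l.take (n - (m + 1))).length = n - (m + 1) := by
          rw [List.length_take, hl]
          omega
        have hLb : ∀ ν ∈ l.drop (n - (m + 1)), Lam f Y ν := fun ν h1 => hL ν (List.mem_of_mem_drop h1)
        have hLa : ∀ ν ∈ l.take (n - (m + 1)), Lam f Y ν := fun ν h1 => hL ν (List.mem_of_mem_take h1)
        have hl2 : l.prod v = (l.take (n - (m + 1))).prod ((l.drop (n - (m + 1))).prod v) := by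
          conv_lhs => rw [← List.take_append_drop (n - (m + 1)) l, List.prod_append]
          rfl
        set b := l.drop (n - (m + 1)) with hbd
        have hbv : b.prod v ∈ Mf f Y v W' m := by
          obtain ⟨g, hg⟩ : ∃ g : Fin (m + 1) → Module.End (ZMod p) V, b = List.ofFn g := by
            refine ⟨fun i => b.get (i.cast hb.symm), ?_⟩
            apply List.ext_getElem
            · rw [List.length_ofFn, hb]
            · intro i h1 h2
              rw [List.getElem_ofFn]
              rfl
          have hgL : ∀ i, Lam f Y (g i) := by
            intro i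
            apply hLb
            rw [hg, List.mem_ofFn]
            exact ⟨i, rfl⟩
          have h1 := hN g hgL v hv
          rw [LinearMap.sum_apply] at h1
          have h2 : ∀ σ : Equiv.Perm (Fin (m + 1)),
              (List.ofFn fun i => g (σ i)).prod v - b.prod v ∈ Mf f Y v W' m := by
            intro σ
            have hp : (List.ofFn fun i => g (σ i)).Perm b := by
              rw [hg]
              exact Equiv.Perm.ofFn_comp_perm σ g
            refine f5 m _ b (fun ν h3 => ?_) hp ?_
            · rw [List.mem_ofFn] at h3
              obtain ⟨i, rfl⟩ := h3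
              exact hgL _
            · rw [List.length_ofFn]
          have h3 : ∑ σ : Equiv.Perm (Fin (m + 1)), ((List.ofFn fun i => g (σ i)).prod v - b.prod v)
              ∈ Mf f Y v W' m := Submodule.sum_mem _ fun σ _ => h2 σ
          rw [Finset.sum_sub_distrib, Finset.sum_const, Finset.card_univ, Fintype.card_perm, Fintype.card_fin]
            at h3
          have h4 := (f2 m).1 h1
          have h5 : (m + 1).factorial • b.prod v ∈ Mf f Y v W' m := by
            have := Submodule.sub_mem _ h4 h3
            rwa [sub_sub_cancel] at this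
          have h6 : (((m + 1).factorial : ℕ) : ZMod p) ≠ 0 := by
            rw [Ne, ZMod.natCast_eq_zero_iff, Nat.Prime.dvd_factorial (Fact.out : p.Prime)]
            omega
          have h7 := Submodule.smul_mem _ ((((m + 1).factorial : ℕ) : ZMod p)⁻¹) h5
          rw [← Nat.cast_smul_eq_nsmul (ZMod p), smul_smul, inv_mul_cancel₀ h6, one_smul] at h7
          exact h7
        rw [hl2]
        have h8 := f6 m _ hLa _ hbv
        exact hMk _ (by rw [ha]; omega) h8
  intro k
  have hs : ∀ z ∈ {z | ∃ l : List (Module.End (ZMod p) V), l.length ≤ k ∧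
      (∀ ν ∈ l, Lam f Y ν) ∧ z = l.prod v}, z ∈ Mf f Y v W' m := by
    rintro z ⟨l, _, hL, rfl⟩
    exact key l.length l rfl hL
  exact sup_le (Submodule.span_le.2 hs) le_sup_right

end Pool.Agent.Helper61.LGB
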